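import Pool.Agent.helper99.WN.SpecC
import Pool.Agent.helper99.WN.Basic

set_option autoImplicit false

open Classical

namespace Pool.Agent.WN

open Pool.Agent.NE

lemma ND_last {k : ℕ} (g : Fr k) (hg : g ≠ 1) : ∃ y : Lt k,
    g = FreeGroup.mk g.toWord.dropLast * lt y ∧
    (FreeGroup.mk g.toWord.dropLast).toWord = g.toWord.dropLast ∧
    g.toWord = g.toWord.dropLast ++ [y] := by
  have hne : g.toWord ≠ [] := by
    intro h
    exact hg (FreeGroup.toWord_eq_nil_iff.1 h)
  refine ⟨g.toWord.getLast hne, ?_, ?_, ?_⟩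
  · have h1 : FreeGroup.mk g.toWord.dropLast * lt (g.toWord.getLast hne) =
        FreeGroup.mk (g.toWord.dropLast ++ [g.toWord.getLast hne]) := by
      unfold lt
      rw [FreeGroup.mul_mk]
    rw [h1, List.dropLast_append_getLast hne, FreeGroup.mk_toWord]
  · rw [FreeGroup.toWord_mk]
    apply FreeGroup.IsReduced.reduce_eq
    exact List.IsChain.left_of_append (l₂ := [g.toWord.getLast hne])
      (by rw [List.dropLast_append_getLast hne]; exact FreeGroup.isReduced_toWord)
  · exact (List.dropLast_append_getLast hne).symm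

theorem ND (hNM : NM_stmt) (hNT : NT_stmt) : ND_stmt := by
  intro k A t j c d h1A hpc hcA hdA hcd htj hform hdc
  have hd1 : d ≠ 1 := by
    intro h
    apply hdc
    rw [h, FreeGroup.toWord_one]
    exact List.nil_prefix
  -- the map
  let f : Fr k → Fr k := fun g => if d.toWord <+: g.toWord then t j * g else g
  have hf1 : ∀ g, d.toWord <+: g.toWord → f g = t j * g := fun g h => if_pos h
  have hf2 : ∀ g, ¬ d.toWord <+: g.toWord → f g = g := fun g h => if_neg h
  have hfd : f d = c := by
    rw [hf1 d (List.prefix_refl _), htj]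
    group
  have hfc : f c = c := hf2 c hdc
  have hone : ¬ d.toWord <+: (1 : Fr k).toWord := by
    intro h
    rw [FreeGroup.toWord_one, List.prefix_nil, FreeGroup.toWord_eq_nil_iff] at h
    exact hd1 h
  have hf_one : f 1 = 1 := hf2 1 hone
  let A' : Finset (Fr k) := A.image f
  have hmem : ∀ g ∈ A, f g ∈ A' := fun g hg => Finset.mem_image_of_mem f hg
  have hcard : A'.card < A.card := by
    refine lt_of_le_of_ne Finset.card_image_le ?_
    intro h
    have h2 := Finset.card_image_iff.1 h
    exact hcd (h2 hcA hdA (by rw [hfc, hfd]))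
  obtain ⟨y, hy1, hy2, hy3⟩ := ND_last d hd1
  obtain ⟨d0, hd0⟩ : ∃ d0, d0 = FreeGroup.mk d.toWord.dropLast := ⟨_, rfl⟩
  rw [← hd0] at hy1 hy2
  have hd0A : d0 ∈ A := by rw [hd0]; exact hpc d hdA
  have hd0n : ¬ d.toWord <+: d0.toWord := by
    intro h
    have h2 := h.length_le
    rw [hy2] at h2
    have h3 := congrArg List.length hy3
    rw [List.length_append, List.length_singleton] at h3
    omega
  choose! a' ha' b' hb' x' hx' using hform
  let ε : Fin k → ℤ := fun i => if d.toWord <+: (a' i).toWord then 1 else 0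
  let δ : Fin k → ℤ := fun i => if d.toWord <+: (b' i).toWord then -1 else 0
  have hfa : ∀ g : Fr k, f g = (t j) ^ (if d.toWord <+: g.toWord then (1 : ℤ) else 0) * g := by
    intro g
    by_cases h : d.toWord <+: g.toWord
    · rw [hf1 g h, if_pos h, zpow_one]
    · rw [hf2 g h, if_neg h, zpow_zero, one_mul]
  have hfb : ∀ g : Fr k, (f g)⁻¹ = g⁻¹ * (t j) ^ (if d.toWord <+: g.toWord then (-1 : ℤ) else 0) := by
    intro g
    by_cases h : d.toWord <+: g.toWord
    · rw [hf1 g h, if_pos h, mul_inv_rev, zpow_neg_one]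
    · rw [hf2 g h, if_neg h, zpow_zero, mul_one]
  refine ⟨A', (fun i => if i = j then (t j)⁻¹ else (t j) ^ ε i * t i * (t j) ^ δ i),
    (fun i => if i = j then d0 else f (a' i)), (fun i => if i = j then c else f (b' i)),
    (fun i => if i = j then y else x' i), hcard, hNM (Fr k) k t j ε δ, ?_⟩
  -- the chains
  have hstep : ∀ g g' : Fr k, g ∈ A' → g' ∈ A' → (∃ y : Lt k, g' = g * lt y) →
      (fun p q : Fr k => p ∈ (A' : Set (Fr k)) ∧ q ∈ (A' : Set (Fr k)) ∧ ∃ y : Lt k, q = p * lt y) g g' :=
    fun g g' h1 h2 h3 => ⟨h1, h2, h3⟩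
  have hch1 : ∀ (n : ℕ) (g : Fr k), g.toWord.length = n → g ∈ A → ¬ d.toWord <+: g.toWord →
      Relation.ReflTransGen (fun p q : Fr k => p ∈ (A' : Set (Fr k)) ∧ q ∈ (A' : Set (Fr k)) ∧
        ∃ y : Lt k, q = p * lt y) 1 g := by
    intro n
    induction n with
    | zero =>
      intro g hg _ _
      have : g = 1 := FreeGroup.toWord_eq_nil_iff.1 (List.length_eq_zero_iff.1 hg)
      rw [this]
    | succ n ih =>
      intro g hg hgA hgn
      have hg1 : g ≠ 1 := by
        intro h
        rw [h, FreeGroup.toWord_one] at hg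
        simp at hg
      obtain ⟨z, hz1, hz2, hz3⟩ := ND_last g hg1
      have hlen : (FreeGroup.mk g.toWord.dropLast).toWord.length = n := by
        rw [hz2, List.length_dropLast, hg]
        rfl
      have hn' : ¬ d.toWord <+: (FreeGroup.mk g.toWord.dropLast).toWord := by
        intro h
        rw [hz2] at h
        exact hgn (h.trans (List.dropLast_prefix _))
      have h5 := ih _ hlen (hpc g hgA) hn'
      refine h5.tail ⟨?_, ?_, z, hz1⟩
      · have := hmem _ (hpc g hgA)
        rw [hf2 _ hn'] at this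
        exact this
      · have := hmem _ hgA
        rw [hf2 _ hgn] at this
        exact this
  have hch2 : ∀ (n : ℕ) (g : Fr k), g.toWord.length = n → g ∈ A → d.toWord <+: g.toWord →
      Relation.ReflTransGen (fun p q : Fr k => p ∈ (A' : Set (Fr k)) ∧ q ∈ (A' : Set (Fr k)) ∧
        ∃ y : Lt k, q = p * lt y) 1 (f g) := by
    intro n
    induction n with
    | zero =>
      intro g hg _ hgd
      exfalso
      have : g = 1 := FreeGroup.toWord_eq_nil_iff.1 (List.length_eq_zero_iff.1 hg)
      rw [this] at hgd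
      exact hone hgd
    | succ n ih =>
      intro g hg hgA hgd
      by_cases hgeq : g = d
      · rw [hgeq, hfd]
        exact hch1 _ c rfl hcA hdc
      have hg1 : g ≠ 1 := by
        intro h
        rw [h, FreeGroup.toWord_one] at hg
        simp at hg
      obtain ⟨z, hz1, hz2, hz3⟩ := ND_last g hg1
      have hlen : (FreeGroup.mk g.toWord.dropLast).toWord.length = n := by
        rw [hz2, List.length_dropLast, hg]
        rfl
      have hp' : d.toWord <+: (FreeGroup.mk g.toWord.dropLast).toWord := by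
        rw [hz2]
        obtain ⟨s, hs⟩ := hgd
        have hs0 : s ≠ [] := by
          intro h
          rw [h, List.append_nil] at hs
          exact hgeq (FreeGroup.toWord_injective hs.symm)
        refine ⟨s.dropLast, ?_⟩
        rw [← hs, List.dropLast_append_of_ne_nil hs0]
      have h5 := ih _ hlen (hpc g hgA) hp'
      refine h5.tail ⟨hmem _ (hpc g hgA), hmem _ hgA, z, ?_⟩
      rw [hf1 _ hp', hf1 g hgd, mul_assoc, ← hz1]
  have hchain : ∀ g ∈ (A' : Set (Fr k)), Relation.ReflTransGen (fun p q : Fr k =>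
      p ∈ (A' : Set (Fr k)) ∧ q ∈ (A' : Set (Fr k)) ∧ ∃ y : Lt k, q = p * lt y) 1 g := by
    intro g hg
    obtain ⟨g0, hg0, rfl⟩ := Finset.mem_image.1 (Finset.mem_coe.1 hg)
    by_cases h : d.toWord <+: g0.toWord
    · exact hch2 _ g0 rfl hg0 h
    · have h2 := hch1 _ g0 rfl hg0 h
      rw [hf2 g0 h]
      exact h2
  have hpc' := hNT k (A' : Set (Fr k)) hchain
  refine ⟨?_, ?_, ?_, ?_, ?_⟩
  · have := hmem 1 h1A
    rwa [hf_one] at this
  · intro g hg
    exact Finset.mem_coe.1 (hpc' g (Finset.mem_coe.2 hg))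
  · intro i
    show (if i = j then d0 else f (a' i)) ∈ A'
    by_cases h : i = j
    · rw [if_pos h]
      have := hmem _ hd0A
      rwa [hf2 _ hd0n] at this
    · rw [if_neg h]
      exact hmem _ (ha' i h)
  · intro i
    show (if i = j then c else f (b' i)) ∈ A'
    by_cases h : i = j
    · rw [if_pos h]
      have := hmem _ hcA
      rwa [hfc] at this
    · rw [if_neg h]
      exact hmem _ (hb' i h)
  · intro i
    show (if i = j then (t j)⁻¹ else (t j) ^ ε i * t i * (t j) ^ δ i) =
      (if i = j then d0 else f (a' i)) * lt (if i = j then y else x' i) *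
        (if i = j then c else f (b' i))⁻¹
    by_cases h : i = j
    · rw [if_pos h, if_pos h, if_pos h, if_pos h, ← hy1, htj]
      group
    · rw [if_neg h, if_neg h, if_neg h, if_neg h, hfa (a' i), hfb (b' i), hx' i h]
      simp only [ε, δ, mul_assoc]

end Pool.Agent.WN
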